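import Pool.Agent.Q170.F3.Kite

/-!
# `F_3` in the plane is not maximised by discs

For the rectangle `Ω = (-5/3, 1/3) × (-1/2, 1/2)` one has `F_3(Ω) ≥ (2700/193) π²`, and
`F_3(B) ≤ (448/33) π²` for every disc `B` which contains the origin.

* `μ_2(Ω) ≥ π²/4` and `μ_3(Ω) ≥ π²` by the Poincaré inequality on `Ω` and on its two unit squares;
  the polar dual of `Ω` is a kite of area `36/5` and second moment `1158/125`.
* `μ_2(B) + μ_3(B) ≤ 224/(33 R²)` from the trial functions `x_i (1 - |x|²/(3 R²))`, and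
  `V(D)² ≤ 2 π I(D)` for every planar set `D`.
-/

set_option autoImplicit false

namespace Pool.Agent.Results.MP_050cc1_an.ShiftedRectangle

open Pool.Agent.Q170.F3

/-- There is a bounded convex planar domain `Ω` containing the origin with `F_3(Ω) > F_3(B)` for
every open disc `B` containing the origin. -/
theorem result : ∃ Ω : Set (ℝ × ℝ), IsOpen Ω ∧ Convex ℝ Ω ∧ Bornology.IsBounded Ω ∧ (0, 0) ∈ Ω ∧
    ∀ (c : ℝ × ℝ) (R : ℝ), 0 < R → (0, 0) ∈ disc c R → F 3 (disc c R) < F 3 Ω := by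
  refine ⟨Om, Om_open, Om_convex, Om_bounded, ⟨⟨by norm_num, by norm_num⟩,
    ⟨by norm_num, by norm_num⟩⟩, fun c R hR _ => ?_⟩
  have h1 := F_disc c hR
  have h2 := F_Om
  have hpi := Real.pi_pos
  nlinarith

end Pool.Agent.Results.MP_050cc1_an.ShiftedRectangle
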